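import Pool.Agent.Lib.MP_a31e1e_gt.Interfaces

open scoped ContDiff Manifold Topology RealInnerProductSpace
open Set Metric

namespace Pool.Agent.Tight.H27

open Pool.Agent.Tight

/-- an indefinite quadratic form in two variables is positive somewhere, quantitatively -/
lemma quad_pos (p q r B k : ℝ) (hk : p * r - q ^ 2 = -k) (hk0 : 0 < k) (hB : 0 < B)
    (hp : |p| ≤ B) (hq : |q| ≤ B) (hr : |r| ≤ B) :
    ∃ x y : ℝ, 0 < x ^ 2 + y ^ 2 ∧
      k / (4 * B) * (x ^ 2 + y ^ 2) ≤ p * x ^ 2 + 2 * q * (x * y) + r * y ^ 2 := by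
  set D : ℝ := √(((p - r) / 2) ^ 2 + q ^ 2) with hD
  have hD0 : 0 ≤ D := Real.sqrt_nonneg _
  have hD2 : D ^ 2 = ((p - r) / 2) ^ 2 + q ^ 2 := Real.sq_sqrt (by positivity)
  set m : ℝ := (p + r) / 2 + D with hm
  have hprod : m * (D - (p + r) / 2) = k := by rw [hm]; nlinarith
  have hpa := abs_le.1 hp
  have hqa := abs_le.1 hq
  have hra := abs_le.1 hr
  have hDB : D ≤ 2 * B := by
    apply abs_le_of_sq_le_sq' _ (by positivity) |>.2
    rw [hD2]
    nlinarith [sq_nonneg (p - r), hpa.1, hpa.2, hqa.1, hqa.2, hra.1, hra.2,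
      mul_nonneg (sub_nonneg.2 hpa.2) (sub_nonneg.2 hpa.1),
      mul_nonneg (sub_nonneg.2 hra.2) (sub_nonneg.2 hra.1),
      mul_nonneg (sub_nonneg.2 hqa.2) (sub_nonneg.2 hqa.1), sq_nonneg (p + r)]
  have hDpr : |(p + r) / 2| < D := by
    apply abs_lt_of_sq_lt_sq _ hD0
    rw [hD2]; nlinarith
  have hlt := abs_lt.1 hDpr
  have hm0 : 0 < m := by rw [hm]; linarith [hlt.1]
  have hd0 : 0 < D - (p + r) / 2 := by linarith [hlt.2]
  have hd4 : D - (p + r) / 2 ≤ 4 * B := by linarith [hpa.1, hra.1]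
  have hmk : k / (4 * B) ≤ m := by
    rw [div_le_iff₀ (by positivity), ← hprod]
    exact mul_le_mul_of_nonneg_left hd4 hm0.le
  have hchar : (m - p) * (m - r) = q ^ 2 := by rw [hm]; nlinarith
  by_cases h0 : q = 0 ∧ m = p
  · refine ⟨1, 0, by norm_num, ?_⟩
    have : k / (4 * B) ≤ p := h0.2 ▸ hmk
    nlinarith
  · refine ⟨q, m - p, ?_, ?_⟩
    · by_cases hq0 : q = 0
      · have : m - p ≠ 0 := fun h => h0 ⟨hq0, by linarith⟩
        positivity
      · positivity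
    · have h1 : p * q ^ 2 + 2 * q * (q * (m - p)) + r * (m - p) ^ 2
          = m * (q ^ 2 + (m - p) ^ 2) := by
        have : r * (m - p) ^ 2 = (m * (m - p) - q ^ 2) * (m - p) := by
          have : r * (m - p) = m * (m - p) - q ^ 2 := by linarith [hchar]
          rw [← this]; ring
        rw [this]; ring
      rw [h1]
      exact mul_le_mul_of_nonneg_right hmk (by positivity)

lemma normSq (x : E3) : ‖x‖ ^ 2 = x 0 ^ 2 + x 1 ^ 2 + x 2 ^ 2 := by
  rw [EuclideanSpace.real_norm_sq_eq, Fin.sum_univ_three]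

lemma normSq2 (x : E2) : ‖x‖ ^ 2 = x 0 ^ 2 + x 1 ^ 2 := by
  rw [EuclideanSpace.real_norm_sq_eq, Fin.sum_univ_two]

lemma det3_abs_le (a b c : E3) : |det3 a b c| ≤ ‖a‖ * ‖b‖ * ‖c‖ := by
  apply abs_le_of_sq_le_sq _ (by positivity)
  have : (‖a‖ * ‖b‖ * ‖c‖) ^ 2 = ‖a‖ ^ 2 * ‖b‖ ^ 2 * ‖c‖ ^ 2 := by ring
  rw [this, normSq, normSq, normSq, det3]
  set a0 := a 0; set a1 := a 1; set a2 := a 2
  set b0 := b 0; set b1 := b 1; set b2 := b 2
  set c0 := c 0; set c1 := c 1; set c2 := c 2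
  set n0 := a1 * b2 - a2 * b1 with hn0
  set n1 := a2 * b0 - a0 * b2 with hn1
  set n2 := a0 * b1 - a1 * b0 with hn2
  have h1 : a0 * (b1 * c2 - b2 * c1) - a1 * (b0 * c2 - b2 * c0) + a2 * (b0 * c1 - b1 * c0)
      = n0 * c0 + n1 * c1 + n2 * c2 := by rw [hn0, hn1, hn2]; ring
  have h2 : n0 ^ 2 + n1 ^ 2 + n2 ^ 2 = (a0 ^ 2 + a1 ^ 2 + a2 ^ 2) * (b0 ^ 2 + b1 ^ 2 + b2 ^ 2)
      - (a0 * b0 + a1 * b1 + a2 * b2) ^ 2 := by rw [hn0, hn1, hn2]; ring
  have h3 : (n0 * c0 + n1 * c1 + n2 * c2) ^ 2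
      ≤ (n0 ^ 2 + n1 ^ 2 + n2 ^ 2) * (c0 ^ 2 + c1 ^ 2 + c2 ^ 2) := by
    nlinarith [sq_nonneg (n0 * c1 - n1 * c0), sq_nonneg (n0 * c2 - n2 * c0),
      sq_nonneg (n1 * c2 - n2 * c1)]
  rw [h1]
  refine h3.trans (mul_le_mul_of_nonneg_right ?_ (by positivity))
  rw [h2]
  linarith [sq_nonneg (a0 * b0 + a1 * b1 + a2 * b2)]

lemma clm_coord (α : E3 →L[ℝ] ℝ) (v : E3) :
    α v = α (EuclideanSpace.single 0 1) * v 0 + α (EuclideanSpace.single 1 1) * v 1
      + α (EuclideanSpace.single 2 1) * v 2 := by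
  have hv : v = v 0 • EuclideanSpace.single (0 : Fin 3) (1 : ℝ)
      + v 1 • EuclideanSpace.single (1 : Fin 3) (1 : ℝ)
      + v 2 • EuclideanSpace.single (2 : Fin 3) (1 : ℝ) := by
    ext i
    fin_cases i <;> simp
  conv_lhs => rw [hv]
  simp only [map_add, map_smul, smul_eq_mul]
  ring

lemma e2_decomp (u : E2) : u = u 0 • e2 0 + u 1 • e2 1 := by
  ext i
  fin_cases i <;> simp [e2]

lemma normal_eq (α : E3 →L[ℝ] ℝ) (a b : E3) (ha : α a = 0) (hb : α b = 0)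
    (c : E3) (hn : det3 a b c ≠ 0) : ∃ μ : ℝ, ∀ v, α v = μ * det3 a b v := by
  have hA := clm_coord α
  set α0 := α (EuclideanSpace.single 0 1)
  set α1 := α (EuclideanSpace.single 1 1)
  set α2 := α (EuclideanSpace.single 2 1)
  rw [hA] at ha hb
  set n0 := a 1 * b 2 - a 2 * b 1 with hn0
  set n1 := a 2 * b 0 - a 0 * b 2 with hn1
  set n2 := a 0 * b 1 - a 1 * b 0 with hn2
  have hdet : ∀ v : E3, det3 a b v = n0 * v 0 + n1 * v 1 + n2 * v 2 := by
    intro v; rw [det3, hn0, hn1, hn2]; ring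
  have h01 : n0 * α1 = n1 * α0 := by
    rw [hn0, hn1]; linear_combination b 2 * ha - a 2 * hb
  have h02 : n0 * α2 = n2 * α0 := by
    rw [hn0, hn2]; linear_combination - b 1 * ha + a 1 * hb
  have h12 : n1 * α2 = n2 * α1 := by
    rw [hn1, hn2]; linear_combination b 0 * ha - a 0 * hb
  have hne : n0 ≠ 0 ∨ n1 ≠ 0 ∨ n2 ≠ 0 := by
    by_contra h
    push Not at h
    apply hn
    rw [hdet, h.1, h.2.1, h.2.2]; ring
  rcases hne with h | h | h
  · refine ⟨α0 / n0, fun v => ?_⟩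
    rw [hA, hdet, div_mul_eq_mul_div, eq_div_iff h]
    linear_combination v 1 * h01 + v 2 * h02
  · refine ⟨α1 / n1, fun v => ?_⟩
    rw [hA, hdet, div_mul_eq_mul_div, eq_div_iff h]
    linear_combination - v 0 * h01 + v 2 * h12
  · refine ⟨α2 / n2, fun v => ?_⟩
    rw [hA, hdet, div_mul_eq_mul_div, eq_div_iff h]
    linear_combination - v 0 * h02 - v 1 * h12

lemma det3_add (a b c d : E3) : det3 a b (c + d) = det3 a b c + det3 a b d := by
  simp only [det3, PiLp.add_apply]; ring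

lemma det3_smul (a b c : E3) (r : ℝ) : det3 a b (r • c) = r * det3 a b c := by
  simp only [det3, PiLp.smul_apply, smul_eq_mul]; ring

theorem strongOfCurv : StrongOfCurvStatement := by
  intro X a κ B c ϖ hX hneg hκ hB hX1 hsff hc0 hc α hα hker
  have hsym : IsSymmSndFDerivAt ℝ X a := by
    apply hX.isSymmSndFDerivAt
    rw [minSmoothness_of_isRCLikeNormedField]
    exact WithTop.coe_le_coe.2 le_top
  set X0 := fderiv ℝ X a (e2 0) with hX0
  set Xa1 := fderiv ℝ X a (e2 1) with hXa1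
  have hs10 : sff X a 1 0 = sff X a 0 1 := by
    simp only [sff, D2]
    rw [hsym.eq (e2 1) (e2 0)]
  -- some entry is nonzero
  have hne : ∃ v, det3 X0 Xa1 v ≠ 0 := by
    by_contra h
    push Not at h
    have h00 : sff X a 0 0 = 0 := h _
    have h01 : sff X a 0 1 = 0 := h _
    rw [curv, h00, h01] at hneg
    norm_num at hneg
  obtain ⟨v0, hv0⟩ := hne
  obtain ⟨μ, hμ⟩ := normal_eq α X0 Xa1 (hker _) (hker _) v0 hv0
  have hμ0 : μ ≠ 0 := by
    rintro rfl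
    apply hα
    ext v
    simp [hμ v]
  have hαn : ‖α‖ ≤ |μ| * B ^ 2 := by
    refine α.opNorm_le_bound (by positivity) fun v => ?_
    rw [hμ v, Real.norm_eq_abs, abs_mul]
    calc |μ| * |det3 X0 Xa1 v| ≤ |μ| * (‖X0‖ * ‖Xa1‖ * ‖v‖) :=
          mul_le_mul_of_nonneg_left (det3_abs_le _ _ _) (abs_nonneg _)
      _ ≤ |μ| * (B * B * ‖v‖) := by
          gcongr
          · exact hX1 0
          · exact hX1 1
      _ = |μ| * B ^ 2 * ‖v‖ := by ring
  -- the form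
  have hform : ∀ x y : ℝ, α (D2 X a (x • e2 0 + y • e2 1) (x • e2 0 + y • e2 1))
      = μ * (sff X a 0 0 * x ^ 2 + 2 * sff X a 0 1 * (x * y) + sff X a 1 1 * y ^ 2) := by
    intro x y
    rw [hμ]
    have : D2 X a (x • e2 0 + y • e2 1) (x • e2 0 + y • e2 1)
        = (x * x) • D2 X a (e2 0) (e2 0) + (x * y) • D2 X a (e2 0) (e2 1)
          + ((y * x) • D2 X a (e2 1) (e2 0) + (y * y) • D2 X a (e2 1) (e2 1)) := by
      simp only [D2, map_add, map_smul, add_apply, smul_apply]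
      module
    rw [this]
    simp only [det3_add, det3_smul]
    have e00 : det3 X0 Xa1 (D2 X a (e2 0) (e2 0)) = sff X a 0 0 := rfl
    have e01 : det3 X0 Xa1 (D2 X a (e2 0) (e2 1)) = sff X a 0 1 := rfl
    have e10 : det3 X0 Xa1 (D2 X a (e2 1) (e2 0)) = sff X a 0 1 := hs10
    have e11 : det3 X0 Xa1 (D2 X a (e2 1) (e2 1)) = sff X a 1 1 := rfl
    rw [e00, e01, e10, e11]
    ring
  set σ : ℝ := ((SignType.sign μ : SignType) : ℝ) with hσ
  have hσμ : μ = σ * |μ| := by rw [hσ, sign_mul_abs]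
  have hσ2 : σ ^ 2 = 1 := by
    rcases lt_or_gt_of_ne hμ0 with h | h
    · rw [hσ, sign_neg h]; norm_num
    · rw [hσ, sign_pos h]; norm_num
  have hσa : |σ| = 1 := by
    rw [← sq_eq_sq₀ (abs_nonneg _) (by norm_num), sq_abs, hσ2]; norm_num
  obtain ⟨x, y, hxy, hq⟩ := quad_pos (σ * sff X a 0 0) (σ * sff X a 0 1) (σ * sff X a 1 1) B
    (-curv X a) (by
      rw [curv]
      linear_combination (sff X a 0 0 * sff X a 1 1 - sff X a 0 1 ^ 2) * hσ2) (by linarith)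
    (by linarith) (by rw [abs_mul, hσa, one_mul]; exact hsff _ _)
    (by rw [abs_mul, hσa, one_mul]; exact hsff _ _) (by rw [abs_mul, hσa, one_mul]; exact hsff _ _)
  have hB0 : 0 < B := by linarith
  have hval : α (D2 X a (x • e2 0 + y • e2 1) (x • e2 0 + y • e2 1))
      = |μ| * (σ * sff X a 0 0 * x ^ 2 + 2 * (σ * sff X a 0 1) * (x * y)
        + σ * sff X a 1 1 * y ^ 2) := by
    rw [hform]
    conv_lhs => rw [hσμ]
    ring
  have hμa : 0 < |μ| := abs_pos.2 hμ0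
  refine ⟨x • e2 0 + y • e2 1, ?_, ?_⟩
  · rw [hval]
    apply mul_pos hμa
    refine lt_of_lt_of_le ?_ hq
    have : 0 < -curv X a := by linarith
    positivity
  · rw [hval]
    have hn : ‖fderiv ℝ X a (x • e2 0 + y • e2 1)‖ ^ 2 ≤ 2 * B ^ 2 * (x ^ 2 + y ^ 2) := by
      have h1 : ‖fderiv ℝ X a (x • e2 0 + y • e2 1)‖ ≤ |x| * B + |y| * B := by
        rw [map_add, map_smul, map_smul]
        refine (norm_add_le _ _).trans ?_
        rw [norm_smul, norm_smul, Real.norm_eq_abs, Real.norm_eq_abs]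
        gcongr
        · exact hX1 0
        · exact hX1 1
      have h2 : ‖fderiv ℝ X a (x • e2 0 + y • e2 1)‖ ^ 2 ≤ (|x| * B + |y| * B) ^ 2 := by
        gcongr
      refine h2.trans ?_
      have : (|x| * B + |y| * B) ^ 2 = B ^ 2 * (|x| + |y|) ^ 2 := by ring
      rw [this]
      have h3 : (|x| + |y|) ^ 2 ≤ 2 * (x ^ 2 + y ^ 2) := by
        nlinarith [sq_nonneg (|x| - |y|), sq_abs x, sq_abs y]
      nlinarith [sq_nonneg B]
    calc c * ϖ (X a) * ‖α‖ * ‖fderiv ℝ X a (x • e2 0 + y • e2 1)‖ ^ 2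
        ≤ c * ϖ (X a) * (|μ| * B ^ 2) * (2 * B ^ 2 * (x ^ 2 + y ^ 2)) := by
          gcongr
      _ = |μ| * ((c * ϖ (X a) * (8 * B ^ 5)) / (4 * B) * (x ^ 2 + y ^ 2)) := by
          field_simp; ring
      _ ≤ |μ| * (-curv X a / (4 * B) * (x ^ 2 + y ^ 2)) := by
          gcongr
          linarith
      _ ≤ _ := by gcongr

end Pool.Agent.Tight.H27
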