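import Pool.Agent.Lib.MP_a31e1e_gt.Interfaces

open scoped ContDiff Manifold Topology RealInnerProductSpace
open Set Metric

namespace Pool.Agent.Tight.H27

open Pool.Agent.Tight

@[simp] lemma pl0 (x y : ℝ) : pl x y 0 = x := rfl
@[simp] lemma pl1 (x y : ℝ) : pl x y 1 = y := rfl
@[simp] lemma pl2 (x y : ℝ) : pl x y 2 = 0 := rfl

lemma nn_nonneg (x : E3) : 0 ≤ nn x := by rw [nn]; positivity

lemma cc_sq_le (x : E3) : cc x ^ 2 ≤ nn x ^ 3 := by
  have : cc x ^ 2 + dd x ^ 2 = nn x ^ 3 := by rw [cc, dd, nn]; ring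
  nlinarith [sq_nonneg (dd x)]

lemma abs_cc_le (x : E3) (h : nn x ≤ 9 / 10000) : |cc x| ≤ 27 / 1000000 := by
  apply abs_le_of_sq_le_sq _ (by norm_num)
  refine (cc_sq_le x).trans ?_
  calc nn x ^ 3 ≤ (9 / 10000) ^ 3 := pow_le_pow_left₀ (nn_nonneg x) h 3
    _ ≤ _ := by norm_num

lemma tt_bounds (x : E3) (h : nn x ≤ 9 / 10000) : 3.997 ≤ tt x ∧ tt x ≤ 4.0001 := by
  have h1 := abs_le.1 (abs_cc_le x h)
  have h2 := nn_nonneg x
  rw [tt]
  constructor <;> norm_num <;> linarith [h1.1, h1.2]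

lemma sqrt_tt_bounds (x : E3) (h : nn x ≤ 9 / 10000) : 1.999 ≤ √(tt x) ∧ √(tt x) ≤ 2.0001 := by
  obtain ⟨h1, h2⟩ := tt_bounds x h
  constructor
  · apply Real.le_sqrt_of_sq_le; norm_num at h1 ⊢; linarith
  · rw [Real.sqrt_le_left (by norm_num)]; norm_num at h2 ⊢; linarith

lemma qq_bounds (x : E3) (h : nn x ≤ 9 / 10000) : 0.99 ≤ qq x ∧ qq x ≤ 1.01 := by
  obtain ⟨h1, h2⟩ := sqrt_tt_bounds x h
  have h3 := nn_nonneg x
  rw [qq]
  norm_num at h1 h2 ⊢
  constructor <;> linarith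

lemma hS_bounds (x : E3) (h : nn x ≤ 9 / 10000) : -1.02 ≤ hS x ∧ hS x ≤ -0.98 := by
  obtain ⟨h1, h2⟩ := qq_bounds x h
  rw [hS]
  have h3 : 0.98 ≤ √(qq x) := by
    apply Real.le_sqrt_of_sq_le; norm_num at h1 ⊢; linarith
  have h4 : √(qq x) ≤ 1.02 := by
    rw [Real.sqrt_le_left (by norm_num)]; norm_num at h2 ⊢; linarith
  norm_num at h3 h4 ⊢
  constructor <;> linarith

@[simp] lemma floorX0 (ρ l : ℝ) (b : E2) : floorX ρ l b 0 = l * xiX b := rfl
@[simp] lemma floorX1 (ρ l : ℝ) (b : E2) : floorX ρ l b 1 = l * xiY b := rfl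
@[simp] lemma floorX2 (ρ l : ℝ) (b : E2) : floorX ρ l b 2 = floorH ρ l b := rfl
@[simp] lemma coreX0 (l : ℝ) (b : E2) : coreX l b 0 = l * xiX b := rfl
@[simp] lemma coreX1 (l : ℝ) (b : E2) : coreX l b 1 = l * xiY b := rfl
@[simp] lemma coreX2 (l : ℝ) (b : E2) : coreX l b 2 =
  -1 - cc (pl (l * xiX b) (l * xiY b)) / 2 - 10 * l ^ 3 * (b 1 * Real.sin (3 * b 0)) := rfl

lemma nn_floorX (ρ l : ℝ) (b : E2) :
    nn (floorX ρ l b) = nn (pl (l * xiX b) (l * xiY b)) := rfl

lemma cc_floorX (ρ l : ℝ) (b : E2) :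
    cc (floorX ρ l b) = cc (pl (l * xiX b) (l * xiY b)) := rfl

lemma hS_floorX (ρ l : ℝ) (b : E2) :
    hS (floorX ρ l b) = hS (pl (l * xiX b) (l * xiY b)) := rfl

lemma qq_floorX (ρ l : ℝ) (b : E2) :
    qq (floorX ρ l b) = qq (pl (l * xiX b) (l * xiY b)) := rfl

lemma nn_formula (ρ l : ℝ) (b : E2) :
    nn (floorX ρ l b) = l ^ 2 * (b 1 ^ 2 + 2 * b 1 * Real.cos (3 * b 0) + 1) := by
  rw [nn, floorX0, floorX1, xiX, xiY]
  have h3 : Real.cos (3 * b 0) = Real.cos (2 * b 0) * Real.cos (b 0)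
      - Real.sin (2 * b 0) * Real.sin (b 0) := by
    rw [← Real.cos_add]; ring_nf
  rw [h3]
  have e1 := Real.sin_sq_add_cos_sq (b 0)
  have e2 := Real.sin_sq_add_cos_sq (2 * b 0)
  linear_combination l ^ 2 * e2 + l ^ 2 * b 1 ^ 2 * e1

lemma xi_surj (l : ℝ) (hl : 0 < l) (x : E3) : ∃ b : E2, l * xiX b = x 0 ∧ l * xiY b = x 1 := by
  set X := x 0 / l with hX
  set Y := x 1 / l with hY
  have hx : x 0 = l * X := by rw [hX]; field_simp
  have hy : x 1 = l * Y := by rw [hY]; field_simp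
  set f : ℝ → ℝ := fun u => X * Real.sin u + Y * Real.cos u - Real.sin (3 * u) with hf
  have hcont : Continuous f := by rw [hf]; fun_prop
  have hsurj : ∃ u, f u = 0 := by
    have h0 : f 0 = Y := by simp [hf]
    have hpi : f Real.pi = -Y := by
      have : Real.sin (3 * Real.pi) = 0 := by
        have := Real.sin_nat_mul_pi 3
        exact_mod_cast this
      simp [hf, this]
    have h := mem_range_of_exists_le_of_exists_ge hcont (c := 0) (by
      rcases le_total Y 0 with h | h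
      · exact ⟨0, by rw [h0]; exact h⟩
      · exact ⟨Real.pi, by rw [hpi]; linarith⟩) (by
      rcases le_total Y 0 with h | h
      · exact ⟨Real.pi, by rw [hpi]; linarith⟩
      · exact ⟨0, by rw [h0]; exact h⟩)
    exact h
  obtain ⟨u, hu⟩ := hsurj
  set t := X * Real.cos u - Y * Real.sin u - Real.cos (3 * u) with ht
  have hu' : X * Real.sin u + Y * Real.cos u = Real.sin (3 * u) := by
    have : X * Real.sin u + Y * Real.cos u - Real.sin (3 * u) = 0 := hu
    linarith
  have ht' : X * Real.cos u - Y * Real.sin u = t + Real.cos (3 * u) := by rw [ht]; ring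
  have e1 := Real.sin_sq_add_cos_sq u
  have c2 : Real.cos (2 * u) = Real.cos (3 * u) * Real.cos u + Real.sin (3 * u) * Real.sin u := by
    rw [← Real.cos_sub]; ring_nf
  have s2 : Real.sin (2 * u) = Real.sin (3 * u) * Real.cos u - Real.cos (3 * u) * Real.sin u := by
    rw [← Real.sin_sub]; ring_nf
  refine ⟨!₂[u, t], ?_, ?_⟩
  · rw [hx]
    congr 1
    change Real.cos (2 * u) + t * Real.cos u = X
    rw [c2]
    linear_combination X * e1 - Real.sin u * hu' - Real.cos u * ht'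
  · rw [hy]
    congr 1
    change Real.sin (2 * u) - t * Real.sin u = Y
    rw [s2]
    linear_combination Y * e1 - Real.cos u * hu' + Real.sin u * ht'

lemma contDiff_coord (i : Fin 2) : ContDiff ℝ ∞ (fun b : E2 => b i) := by fun_prop

lemma contDiff_xiX : ContDiff ℝ ∞ xiX := by
  unfold xiX
  exact ((Real.contDiff_cos.comp (contDiff_const.mul (contDiff_coord 0))).add
    ((contDiff_coord 1).mul (Real.contDiff_cos.comp (contDiff_coord 0))))

lemma contDiff_xiY : ContDiff ℝ ∞ xiY := by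
  unfold xiY
  exact ((Real.contDiff_sin.comp (contDiff_const.mul (contDiff_coord 0))).sub
    ((contDiff_coord 1).mul (Real.contDiff_sin.comp (contDiff_coord 0))))

lemma contDiff_pn (l : ℝ) : ContDiff ℝ ∞ (fun b : E2 => nn (pl (l * xiX b) (l * xiY b))) := by
  have : (fun b : E2 => nn (pl (l * xiX b) (l * xiY b)))
      = fun b => (l * xiX b) ^ 2 + (l * xiY b) ^ 2 := rfl
  rw [this]
  exact (((contDiff_const.mul contDiff_xiX).pow 2).add ((contDiff_const.mul contDiff_xiY).pow 2))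

lemma contDiff_pc (l : ℝ) : ContDiff ℝ ∞ (fun b : E2 => cc (pl (l * xiX b) (l * xiY b))) := by
  have : (fun b : E2 => cc (pl (l * xiX b) (l * xiY b)))
      = fun b => (l * xiY b) ^ 3 - 3 * (l * xiX b) ^ 2 * (l * xiY b) := rfl
  rw [this]
  exact (((contDiff_const.mul contDiff_xiY).pow 3).sub ((contDiff_const.mul
    ((contDiff_const.mul contDiff_xiX).pow 2)).mul (contDiff_const.mul contDiff_xiY)))

lemma contDiff_core2 (l : ℝ) : ContDiff ℝ ∞ (fun b : E2 =>
    -1 - cc (pl (l * xiX b) (l * xiY b)) / 2 - 10 * l ^ 3 * (b 1 * Real.sin (3 * b 0))) := by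
  refine (contDiff_const.sub ((contDiff_pc l).div_const 2)).sub (contDiff_const.mul
    ((contDiff_coord 1).mul (Real.contDiff_sin.comp (contDiff_const.mul (contDiff_coord 0)))))

lemma contDiff_coreX (l : ℝ) : ContDiff ℝ ∞ (coreX l) := by
  rw [contDiff_euclidean]
  intro i
  fin_cases i
  · exact contDiff_const.mul contDiff_xiX
  · exact contDiff_const.mul contDiff_xiY
  · exact contDiff_core2 l

lemma contDiff_chi (ρ : ℝ) : ContDiff ℝ ∞ (chi ρ) := by
  unfold chi
  exact Real.smoothTransition.contDiff.comp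
    (((contDiff_id.div_const _).sub contDiff_const).div_const _)

lemma contDiffAt_hS (l : ℝ) (b : E2) (h : nn (pl (l * xiX b) (l * xiY b)) ≤ 9 / 10000) :
    ContDiffAt ℝ ∞ (fun b : E2 => hS (pl (l * xiX b) (l * xiY b))) b := by
  have htt : ContDiff ℝ ∞ (fun b : E2 => tt (pl (l * xiX b) (l * xiY b))) := by
    unfold tt
    exact (contDiff_const.sub (contDiff_const.mul (contDiff_pn l))).sub (contDiff_pc l)
  have h1 := (tt_bounds _ h).1
  have h2 := (qq_bounds _ h).1
  have hsq : ContDiffAt ℝ ∞ (fun b : E2 => √(tt (pl (l * xiX b) (l * xiY b)))) b :=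
    htt.contDiffAt.sqrt (by norm_num at h1; linarith)
  have hqq : ContDiffAt ℝ ∞ (fun b : E2 => qq (pl (l * xiX b) (l * xiY b))) b := by
    unfold qq
    exact (contDiffAt_const.sub (contDiffAt_const.mul (contDiff_pn l).contDiffAt)).sub
      (contDiffAt_const.mul hsq)
  unfold hS
  exact (hqq.sqrt (by norm_num at h2; linarith)).neg

lemma contDiffAt_floorX (ρ l : ℝ) (b : E2) (h : nn (floorX ρ l b) ≤ 9 / 10000) :
    ContDiffAt ℝ ∞ (floorX ρ l) b := by
  rw [contDiffAt_euclidean]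
  intro i
  fin_cases i
  · exact (contDiff_const.mul contDiff_xiX).contDiffAt
  · exact (contDiff_const.mul contDiff_xiY).contDiffAt
  · change ContDiffAt ℝ ∞ (fun b => floorH ρ l b) b
    unfold floorH
    have hchi : ContDiff ℝ ∞ (fun b : E2 => chi ρ (nn (pl (l * xiX b) (l * xiY b)))) :=
      (contDiff_chi ρ).comp (contDiff_pn l)
    exact ((contDiffAt_const.sub hchi.contDiffAt).mul (contDiff_core2 l).contDiffAt).add
      (hchi.contDiffAt.mul (contDiffAt_hS l b h))

lemma chi_zero {ρ n : ℝ} (hρ : 0 < ρ) (h : n ≤ ρ ^ 2) : chi ρ n = 0 := by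
  rw [chi]
  apply Real.smoothTransition.zero_of_nonpos
  have : n / ρ ^ 2 ≤ 1 := by rw [div_le_one (by positivity)]; exact h
  linarith

lemma chi_one {ρ n : ℝ} (hρ : 0 < ρ) (h : 4 * ρ ^ 2 ≤ n) : chi ρ n = 1 := by
  rw [chi]
  apply Real.smoothTransition.one_of_one_le
  have : 4 ≤ n / ρ ^ 2 := by rw [le_div_iff₀ (by positivity)]; exact h
  linarith

lemma floorX_eq_coreX {ρ l : ℝ} (hρ : 0 < ρ) (b : E2) (h : nn (floorX ρ l b) ≤ ρ ^ 2) :
    floorX ρ l b = coreX l b := by
  have hc : chi ρ (nn (pl (l * xiX b) (l * xiY b))) = 0 := chi_zero hρ h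
  rw [floorX, floorH, hc, coreX]
  congr 1
  simp

lemma floorX_eventually {ρ l : ℝ} (hρ : 0 < ρ) (b : E2) (h : nn (floorX ρ l b) < ρ ^ 2) :
    floorX ρ l =ᶠ[𝓝 b] coreX l := by
  have h1 : ∀ᶠ b' in 𝓝 b, nn (pl (l * xiX b') (l * xiY b')) < ρ ^ 2 :=
    (contDiff_pn l).continuous.continuousAt.eventually_lt_const h
  filter_upwards [h1] with b' hb'
  exact floorX_eq_coreX hρ b' (le_of_lt hb')

/-- coordinates of a derivative -/
lemma fderiv_coord {X : E2 → E3} {b : E2} (h : DifferentiableAt ℝ X b) (v : E2) (i : Fin 3) :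
    (fderiv ℝ X b v) i = fderiv ℝ (fun b => X b i) b v := by
  have h1 : HasFDerivAt (fun b => X b i)
      ((EuclideanSpace.proj i : E3 →L[ℝ] ℝ).comp (fderiv ℝ X b)) b :=
    (EuclideanSpace.proj i : E3 →L[ℝ] ℝ).hasFDerivAt.comp b h.hasFDerivAt
  rw [h1.fderiv]
  rfl

lemma fderiv_of_line {f : E2 → ℝ} {b : E2} (h : DifferentiableAt ℝ f b) (v : E2) {d : ℝ}
    (hd : HasDerivAt (fun s : ℝ => f (b + s • v)) d 0) : fderiv ℝ f b v = d :=
  (h.hasFDerivAt.hasLineDerivAt v).unique hd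

lemma line0 (b v : E2) (i : Fin 2) : HasDerivAt (fun s : ℝ => (b + s • v) i) (v i) 0 := by
  have : (fun s : ℝ => (b + s • v) i) = fun s : ℝ => b i + s * v i := by
    funext s; simp
  rw [this]
  simpa using ((hasDerivAt_id (0 : ℝ)).mul_const (v i)).const_add (b i)

lemma fderiv_xiX (b v : E2) : fderiv ℝ xiX b v =
    v 0 * (-2 * Real.sin (2 * b 0) - b 1 * Real.sin (b 0)) + v 1 * Real.cos (b 0) := by
  apply fderiv_of_line (contDiff_xiX.differentiable (by simp)).differentiableAt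
  unfold xiX
  have h0 := line0 b v 0
  have h1 := line0 b v 1
  have h2 := ((h0.const_mul 2).cos).add (h1.mul h0.cos)
  refine h2.congr_deriv ?_
  rw [zero_smul, add_zero]
  ring

lemma fderiv_xiY (b v : E2) : fderiv ℝ xiY b v =
    v 0 * (2 * Real.cos (2 * b 0) - b 1 * Real.cos (b 0)) - v 1 * Real.sin (b 0) := by
  apply fderiv_of_line (contDiff_xiY.differentiable (by simp)).differentiableAt
  unfold xiY
  have h0 := line0 b v 0
  have h1 := line0 b v 1
  have h2 := ((h0.const_mul 2).sin).sub (h1.mul h0.sin)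
  refine h2.congr_deriv ?_
  rw [zero_smul, add_zero]
  ring

/-- rotated frame -/
lemma planar_zero (l : ℝ) (hl : 0 < l) (b v : E2) (hx : fderiv ℝ (fun b => l * xiX b) b v = 0)
    (hy : fderiv ℝ (fun b => l * xiY b) b v = 0) :
    v 1 = 2 * Real.sin (3 * b 0) * v 0 ∧ (2 * Real.cos (3 * b 0) - b 1) * v 0 = 0 := by
  rw [fderiv_const_mul (contDiff_xiX.differentiable (by simp)).differentiableAt] at hx
  rw [fderiv_const_mul (contDiff_xiY.differentiable (by simp)).differentiableAt] at hy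
  have hx' : fderiv ℝ xiX b v = 0 := by
    have : l * fderiv ℝ xiX b v = 0 := hx
    rcases mul_eq_zero.1 this with h | h
    · exact absurd h hl.ne'
    · exact h
  have hy' : fderiv ℝ xiY b v = 0 := by
    have : l * fderiv ℝ xiY b v = 0 := hy
    rcases mul_eq_zero.1 this with h | h
    · exact absurd h hl.ne'
    · exact h
  rw [fderiv_xiX] at hx'
  rw [fderiv_xiY] at hy'
  have s3 : Real.sin (3 * b 0) = Real.sin (2 * b 0) * Real.cos (b 0)
      + Real.cos (2 * b 0) * Real.sin (b 0) := by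
    rw [← Real.sin_add]; ring_nf
  have c3 : Real.cos (3 * b 0) = Real.cos (2 * b 0) * Real.cos (b 0)
      - Real.sin (2 * b 0) * Real.sin (b 0) := by
    rw [← Real.cos_add]; ring_nf
  have e1 := Real.sin_sq_add_cos_sq (b 0)
  rw [s3, c3]
  constructor
  · linear_combination Real.cos (b 0) * hx' - Real.sin (b 0) * hy' - v 1 * e1
  · linear_combination Real.sin (b 0) * hx' + Real.cos (b 0) * hy' - b 1 * v 0 * (-1) * e1

lemma coreX_inj (l : ℝ) (hl : 0 < l) (b : E2) (hτ : 2 * Real.cos (3 * b 0) - b 1 = 0) (v : E2)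
    (hv : fderiv ℝ (coreX l) b v = 0) : v = 0 := by
  have hd : DifferentiableAt ℝ (coreX l) b :=
    ((contDiff_coreX l).differentiable (by simp)).differentiableAt
  have hx : fderiv ℝ (fun b => l * xiX b) b v = 0 := by
    have := fderiv_coord hd v 0
    rw [hv] at this
    exact this.symm
  have hy : fderiv ℝ (fun b => l * xiY b) b v = 0 := by
    have := fderiv_coord hd v 1
    rw [hv] at this
    exact this.symm
  have hz : fderiv ℝ (fun b => coreX l b 2) b v = 0 := by
    have := fderiv_coord hd v 2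
    rw [hv] at this
    exact this.symm
  obtain ⟨h1, -⟩ := planar_zero l hl b v hx hy
  have hlx : HasDerivAt (fun s : ℝ => l * xiX (b + s • v)) 0 0 := by
    have h := (((contDiff_const (c := l)).mul contDiff_xiX).differentiable
      (by simp : (∞ : WithTop ℕ∞) ≠ 0) b).hasFDerivAt.hasLineDerivAt v
    have h' : HasDerivAt (fun s : ℝ => l * xiX (b + s • v))
      (fderiv ℝ (fun b => l * xiX b) b v) 0 := h
    rwa [hx] at h'
  have hly : HasDerivAt (fun s : ℝ => l * xiY (b + s • v)) 0 0 := by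
    have h := (((contDiff_const (c := l)).mul contDiff_xiY).differentiable
      (by simp : (∞ : WithTop ℕ∞) ≠ 0) b).hasFDerivAt.hasLineDerivAt v
    have h' : HasDerivAt (fun s : ℝ => l * xiY (b + s • v))
      (fderiv ℝ (fun b => l * xiY b) b v) 0 := h
    rwa [hy] at h'
  have hl0 := line0 b v 0
  have hl1 := line0 b v 1
  have hlz : HasDerivAt (fun s : ℝ => coreX l (b + s • v) 2)
      (-(10 * l ^ 3 * (v 1 * Real.sin (3 * b 0) + b 1 * (Real.cos (3 * b 0) * (3 * v 0))))) 0 := by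
    have h := ((((hly.pow 3).sub (((hlx.pow 2).const_mul 3).mul hly)).div_const 2).const_sub (-1)).sub
      ((hl1.mul (hl0.const_mul 3).sin).const_mul (10 * l ^ 3))
    refine h.congr_deriv ?_
    rw [zero_smul, add_zero]
    ring
  have hz' := fderiv_of_line (f := fun b => coreX l b 2)
    ((contDiff_core2 l).differentiable (by simp) b) v hlz
  rw [hz] at hz'
  have hl3 : 10 * l ^ 3 ≠ 0 := by positivity
  have hkey : v 1 * Real.sin (3 * b 0) + b 1 * (Real.cos (3 * b 0) * (3 * v 0)) = 0 := by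
    have : 10 * l ^ 3 * (v 1 * Real.sin (3 * b 0) + b 1 * (Real.cos (3 * b 0) * (3 * v 0))) = 0 := by
      linarith
    rcases mul_eq_zero.1 this with h | h
    · exact absurd h hl3
    · exact h
  have e3 := Real.sin_sq_add_cos_sq (3 * b 0)
  have hb1 : b 1 = 2 * Real.cos (3 * b 0) := by linarith
  rw [h1, hb1] at hkey
  have hv0 : v 0 = 0 := by
    have : v 0 * (2 + 4 * Real.cos (3 * b 0) ^ 2) = 0 := by
      linear_combination hkey - 2 * v 0 * e3
    rcases mul_eq_zero.1 this with h | h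
    · exact h
    · nlinarith [sq_nonneg (Real.cos (3 * b 0))]
  have hv1 : v 1 = 0 := by rw [h1, hv0]; ring
  ext i
  fin_cases i
  · exact hv0
  · exact hv1

lemma small_of_le {ρ l : ℝ} (h : Par ρ l) {n : ℝ} (hn : n ≤ 9 * ρ ^ 2) : n ≤ 9 / 10000 := by
  have := h.hρ'
  have h0 := h.hρ
  nlinarith

lemma l_small {ρ l : ℝ} (h : Par ρ l) : l ≤ 1 / 10000 := by
  have := h.hρ'
  have h1 := h.hl'
  linarith

lemma height_bound {ρ l : ℝ} (h : Par ρ l) (b : E2) (hb : nn (floorX ρ l b) ≤ 9 * ρ ^ 2) :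
    |floorH ρ l b + 1| < 1 / 8 := by
  have hN := small_of_le h hb
  have hl := h.hl
  have hl4 := l_small h
  have h1 := hS_bounds _ hN
  have h2 := abs_le.1 (abs_cc_le _ hN)
  rw [hS_floorX] at h1
  rw [cc_floorX] at h2
  have hform := nn_formula ρ l b
  -- `l |t| ≤ 1/10`
  have hlt : (l * b 1) ^ 2 ≤ 1 / 100 := by
    have e3 := Real.sin_sq_add_cos_sq (3 * b 0)
    have h5 : (l * (b 1 + Real.cos (3 * b 0))) ^ 2 ≤ 9 / 10000 := by
      nlinarith [sq_nonneg (l * Real.sin (3 * b 0))]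
    have h6 : (l * Real.cos (3 * b 0)) ^ 2 ≤ 1 / 10000 := by
      have : Real.cos (3 * b 0) ^ 2 ≤ 1 := by nlinarith [sq_nonneg (Real.sin (3 * b 0))]
      have : (l * Real.cos (3 * b 0)) ^ 2 ≤ l ^ 2 * 1 := by
        rw [mul_pow]
        exact mul_le_mul_of_nonneg_left this (by positivity)
      nlinarith
    nlinarith [sq_nonneg (l * (b 1 + Real.cos (3 * b 0)) + l * Real.cos (3 * b 0))]
  have hω : |10 * l ^ 3 * (b 1 * Real.sin (3 * b 0))| ≤ 1 / 100 := by
    apply abs_le_of_sq_le_sq _ (by norm_num)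
    have hs : Real.sin (3 * b 0) ^ 2 ≤ 1 := Real.sin_sq_le_one _
    have e : (10 * l ^ 3 * (b 1 * Real.sin (3 * b 0))) ^ 2
        = 100 * (l ^ 4 * ((l * b 1) ^ 2 * Real.sin (3 * b 0) ^ 2)) := by ring
    rw [e]
    have h7 : (l * b 1) ^ 2 * Real.sin (3 * b 0) ^ 2 ≤ 1 / 100 * 1 := by gcongr
    have h8 : l ^ 4 ≤ (1 / 10000) ^ 4 := pow_le_pow_left₀ hl.le hl4 4
    have h9 : l ^ 4 * ((l * b 1) ^ 2 * Real.sin (3 * b 0) ^ 2)
        ≤ (1 / 10000) ^ 4 * (1 / 100 * 1) := by gcongr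
    norm_num at h9 ⊢
    linarith
  have hω' := abs_le.1 hω
  have hchi0 : 0 ≤ chi ρ (nn (pl (l * xiX b) (l * xiY b))) := Real.smoothTransition.nonneg _
  have hchi1 : chi ρ (nn (pl (l * xiX b) (l * xiY b))) ≤ 1 := Real.smoothTransition.le_one _
  rw [floorH]
  set χ := chi ρ (nn (pl (l * xiX b) (l * xiY b))) with hχ
  set c := cc (pl (l * xiX b) (l * xiY b)) with hc
  set w := 10 * l ^ 3 * (b 1 * Real.sin (3 * b 0)) with hw
  set s := hS (pl (l * xiX b) (l * xiY b)) with hs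
  have e : (1 - χ) * (-1 - c / 2 - w) + χ * s + 1
      = (1 - χ) * (- c / 2 - w) + χ * (s + 1) := by ring
  rw [e, abs_lt]
  norm_num at h1 h2 hω'
  have a1 : -(1/50) ≤ - c / 2 - w := by linarith [h2.1, h2.2, hω'.1, hω'.2]
  have a2 : - c / 2 - w ≤ 1 / 50 := by linarith [h2.1, h2.2, hω'.1, hω'.2]
  have a3 : -(1/50) ≤ s + 1 := by linarith [h1.1]
  have a4 : s + 1 ≤ 1 / 50 := by linarith [h1.2]
  constructor <;> nlinarith

theorem floorReg : FloorRegStatement := by
  intro ρ l h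
  have hρ := h.hρ
  have hl := h.hl
  refine ⟨fun b hb => ?_, fun b hb => floorX_eq_coreX hρ b hb,
    fun b hb => floorX_eventually hρ b hb, fun b hb1 hb2 => ?_, fun x => xi_surj l hl x,
    fun b => nn_formula ρ l b⟩
  · have hN := small_of_le h hb
    have hC := contDiffAt_floorX ρ l b hN
    have hd : DifferentiableAt ℝ (floorX ρ l) b := hC.differentiableAt (by simp)
    refine ⟨hC, ?_, height_bound h b hb⟩
    rw [injective_iff_map_eq_zero]
    intro v hv
    have hx : fderiv ℝ (fun b => l * xiX b) b v = 0 := by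
      have := fderiv_coord hd v 0
      rw [hv] at this
      exact this.symm
    have hy : fderiv ℝ (fun b => l * xiY b) b v = 0 := by
      have := fderiv_coord hd v 1
      rw [hv] at this
      exact this.symm
    obtain ⟨h1, h2⟩ := planar_zero l hl b v hx hy
    by_cases hτ : 2 * Real.cos (3 * b 0) - b 1 = 0
    · have hnn : nn (floorX ρ l b) < ρ ^ 2 := by
        rw [nn_formula]
        have hb1 : b 1 = 2 * Real.cos (3 * b 0) := by linarith
        rw [hb1]
        have hc : Real.cos (3 * b 0) ^ 2 ≤ 1 := Real.cos_sq_le_one _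
        have e : (2 * Real.cos (3 * b 0)) ^ 2 + 2 * (2 * Real.cos (3 * b 0)) * Real.cos (3 * b 0) + 1
          ≤ 9 := by nlinarith
        have hl' := h.hl'
        calc l ^ 2 * ((2 * Real.cos (3 * b 0)) ^ 2
              + 2 * (2 * Real.cos (3 * b 0)) * Real.cos (3 * b 0) + 1)
            ≤ l ^ 2 * 9 := by gcongr
          _ ≤ (ρ / 100) ^ 2 * 9 := by gcongr
          _ < ρ ^ 2 := by nlinarith [sq_nonneg ρ, pow_pos hρ 2]
      have heq := (floorX_eventually hρ b hnn).fderiv_eq (𝕜 := ℝ)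
      rw [heq] at hv
      exact coreX_inj l hl b hτ v hv
    · have hv0 : v 0 = 0 := by
        rcases mul_eq_zero.1 h2 with h | h
        · exact absurd h hτ
        · exact h
      have hv1 : v 1 = 0 := by rw [h1, hv0]; ring
      ext i
      fin_cases i
      · exact hv0
      · exact hv1
  · have hN := small_of_le h hb2
    have hc : chi ρ (nn (pl (l * xiX b) (l * xiY b))) = 1 := chi_one hρ hb1
    have hH : floorX ρ l b 2 = hS (floorX ρ l b) := by
      rw [floorX2, floorH, hc, hS_floorX]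
      ring
    have hq := (qq_bounds _ hN).1
    have ht := (tt_bounds _ hN).1
    have hqpos : 0 < qq (floorX ρ l b) := by norm_num at hq; linarith
    have htpos : 0 ≤ tt (floorX ρ l b) := by norm_num at ht; linarith
    refine ⟨?_, ?_, hH⟩
    · rw [FS, mm, hH, hS, neg_sq, Real.sq_sqrt hqpos.le, qq]
      have e : 9 - 3 * nn (floorX ρ l b) - 4 * √(tt (floorX ρ l b)) + 3 * nn (floorX ρ l b) - 9
        = -(4 * √(tt (floorX ρ l b))) := by ring
      rw [e, neg_sq, mul_pow, Real.sq_sqrt htpos]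
      ring
    · rw [hH, hS, neg_lt_zero]
      exact Real.sqrt_pos.2 hqpos

end Pool.Agent.Tight.H27
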