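import Pool.Agent.Lib.MP_a31e1e_gt.H27.StrongCurv

open scoped ContDiff Manifold Topology RealInnerProductSpace
open Set Metric

namespace Pool.Agent.Tight.H27

open Pool.Agent.Tight

lemma exists_orth (g0 g1 g2 : ℝ) (hg : 0 < g0 ^ 2 + g1 ^ 2 + g2 ^ 2) :
    ∃ a0 a1 a2 b0 b1 b2 : ℝ, a0 ^ 2 + a1 ^ 2 + a2 ^ 2 = 1 ∧ b0 ^ 2 + b1 ^ 2 + b2 ^ 2 = 1 ∧
      a0 * b0 + a1 * b1 + a2 * b2 = 0 ∧ a0 * g0 + a1 * g1 + a2 * g2 = 0 ∧
      b0 * g0 + b1 * g1 + b2 * g2 = 0 := by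
  by_cases h : g0 = 0 ∧ g1 = 0
  · refine ⟨1, 0, 0, 0, 1, 0, ?_, ?_, ?_, ?_, ?_⟩ <;> simp [h.1, h.2]
  · have hr0 : 0 < g0 ^ 2 + g1 ^ 2 := by
      by_cases h0 : g0 = 0
      · have : g1 ≠ 0 := fun h1 => h ⟨h0, h1⟩
        positivity
      · positivity
    obtain ⟨r, hr, hr2⟩ : ∃ r : ℝ, 0 < r ∧ r ^ 2 = g0 ^ 2 + g1 ^ 2 :=
      ⟨√(g0 ^ 2 + g1 ^ 2), Real.sqrt_pos.2 hr0, Real.sq_sqrt hr0.le⟩
    obtain ⟨G, hG, hG2⟩ : ∃ G : ℝ, 0 < G ∧ G ^ 2 = g0 ^ 2 + g1 ^ 2 + g2 ^ 2 :=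
      ⟨√(g0 ^ 2 + g1 ^ 2 + g2 ^ 2), Real.sqrt_pos.2 hg, Real.sq_sqrt hg.le⟩
    have hr' := hr.ne'
    have hG' := hG.ne'
    refine ⟨-g1 / r, g0 / r, 0, -(g0 * g2) / (r * G), -(g1 * g2) / (r * G), r / G, ?_, ?_, ?_,
      ?_, ?_⟩
    · field_simp
      linarith [hr2]
    · field_simp
      linear_combination (r ^ 2 + g0 ^ 2 + g1 ^ 2 - G ^ 2) * hr2 - (g0 ^ 2 + g1 ^ 2) * hG2
    · field_simp
      ring
    · field_simp
      ring
    · field_simp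
      linear_combination g2 * hr2

lemma quad_bound (h : Fin 3 → Fin 3 → ℝ) (B : ℝ) (hB : 0 ≤ B) (hh : ∀ i j, |h i j| ≤ B)
    (a b : Fin 3 → ℝ) (ha : a 0 ^ 2 + a 1 ^ 2 + a 2 ^ 2 = 1)
    (hb : b 0 ^ 2 + b 1 ^ 2 + b 2 ^ 2 = 1) :
    |∑ i, ∑ j, h i j * a i * b j| ≤ 3 * B := by
  have h1 : |∑ i, ∑ j, h i j * a i * b j| ≤ B * ((∑ i, |a i|) * (∑ j, |b j|)) := by
    refine (Finset.abs_sum_le_sum_abs _ _).trans ?_
    rw [Finset.sum_mul, Finset.mul_sum]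
    refine Finset.sum_le_sum fun i _ => ?_
    refine (Finset.abs_sum_le_sum_abs _ _).trans ?_
    rw [Finset.mul_sum, Finset.mul_sum]
    refine Finset.sum_le_sum fun j _ => ?_
    rw [abs_mul, abs_mul, mul_assoc]
    exact mul_le_mul_of_nonneg_right (hh i j) (by positivity)
  have h2 : ∀ c : Fin 3 → ℝ, c 0 ^ 2 + c 1 ^ 2 + c 2 ^ 2 = 1 → (∑ i, |c i|) ^ 2 ≤ 3 := by
    intro c hc
    rw [Fin.sum_univ_three]
    nlinarith [sq_nonneg (|c 0| - |c 1|), sq_nonneg (|c 0| - |c 2|), sq_nonneg (|c 1| - |c 2|),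
      sq_abs (c 0), sq_abs (c 1), sq_abs (c 2)]
  have h3 : (∑ i, |a i|) * (∑ j, |b j|) ≤ 3 := by
    nlinarith [sq_nonneg ((∑ i, |a i|) - (∑ j, |b j|)), h2 a ha, h2 b hb]
  nlinarith

lemma bord_id (h00 h01 h02 h11 h12 h22 a0 a1 a2 b0 b1 b2 : ℝ) :
    (h00 * a0 ^ 2 + h11 * a1 ^ 2 + h22 * a2 ^ 2
      + 2 * (h01 * a0 * a1 + h02 * a0 * a2 + h12 * a1 * a2)) *
    (h00 * b0 ^ 2 + h11 * b1 ^ 2 + h22 * b2 ^ 2
      + 2 * (h01 * b0 * b1 + h02 * b0 * b2 + h12 * b1 * b2))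
    - (h00 * a0 * b0 + h11 * a1 * b1 + h22 * a2 * b2 + h01 * (a0 * b1 + a1 * b0)
      + h02 * (a0 * b2 + a2 * b0) + h12 * (a1 * b2 + a2 * b1)) ^ 2
    = (a1 * b2 - a2 * b1) ^ 2 * (h11 * h22 - h12 ^ 2)
      + (a2 * b0 - a0 * b2) ^ 2 * (h00 * h22 - h02 ^ 2)
    + (a0 * b1 - a1 * b0) ^ 2 * (h00 * h11 - h01 ^ 2)
    + 2 * (a1 * b2 - a2 * b1) * (a2 * b0 - a0 * b2) * (h02 * h12 - h01 * h22)
    + 2 * (a1 * b2 - a2 * b1) * (a0 * b1 - a1 * b0) * (h01 * h12 - h02 * h11)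
    + 2 * (a2 * b0 - a0 * b2) * (a0 * b1 - a1 * b0) * (h01 * h02 - h12 * h00) := by
  ring

lemma sum_expand (h : Fin 3 → Fin 3 → ℝ) (hsym : ∀ i j, h i j = h j i) (a b : E3) :
    ∑ i, ∑ j, h i j * a i * b j = h 0 0 * a 0 * b 0 + h 1 1 * a 1 * b 1 + h 2 2 * a 2 * b 2
      + h 0 1 * (a 0 * b 1 + a 1 * b 0) + h 0 2 * (a 0 * b 2 + a 2 * b 0)
      + h 1 2 * (a 1 * b 2 + a 2 * b 1) := by
  simp only [Fin.sum_univ_three, hsym 1 0, hsym 2 0, hsym 2 1]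
  ring

lemma sum_expand_diag (h : Fin 3 → Fin 3 → ℝ) (hsym : ∀ i j, h i j = h j i) (a : E3) :
    ∑ i, ∑ j, h i j * a i * a j = h 0 0 * a 0 ^ 2 + h 1 1 * a 1 ^ 2 + h 2 2 * a 2 ^ 2
      + 2 * (h 0 1 * a 0 * a 1 + h 0 2 * a 0 * a 2 + h 1 2 * a 1 * a 2) := by
  simp only [Fin.sum_univ_three, hsym 1 0, hsym 2 0, hsym 2 1]
  ring

theorem strongOfBord : StrongOfBordStatement := by
  intro F x g h κ B c ϖ hg hh hsym hneg hκ hB hgB hhB hc0 hc μ hμ0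
  set G2 : ℝ := g 0 ^ 2 + g 1 ^ 2 + g 2 ^ 2 with hG2
  have hG2pos : 0 < G2 := by
    by_contra hcon
    have h0 : g 0 = 0 := by nlinarith [sq_nonneg (g 0), sq_nonneg (g 1), sq_nonneg (g 2)]
    have h1 : g 1 = 0 := by nlinarith [sq_nonneg (g 0), sq_nonneg (g 1), sq_nonneg (g 2)]
    have h2 : g 2 = 0 := by nlinarith [sq_nonneg (g 0), sq_nonneg (g 1), sq_nonneg (g 2)]
    rw [bord, h0, h1, h2] at hneg
    norm_num at hneg
  set G : ℝ := √G2 with hG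
  have hGpos : 0 < G := Real.sqrt_pos.2 hG2pos
  have hGsq : G ^ 2 = G2 := Real.sq_sqrt hG2pos.le
  have hB0 : 0 < B := by linarith
  have hGB : G ≤ 7 / 4 * B := by
    apply le_of_sq_le_sq _ (by positivity)
    rw [hGsq, hG2]
    have q : ∀ i, g i ^ 2 ≤ B ^ 2 := fun i => by
      rw [← sq_abs (g i)]
      exact pow_le_pow_left₀ (abs_nonneg _) (hgB i) 2
    nlinarith [q 0, q 1, q 2]
  have hnormF : ‖fderiv ℝ F x‖ ≤ G := by
    refine ContinuousLinearMap.opNorm_le_bound _ hGpos.le fun v => ?_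
    rw [hg v, Real.norm_eq_abs]
    apply abs_le_of_sq_le_sq _ (by positivity)
    rw [mul_pow, hGsq, normSq, Fin.sum_univ_three, hG2]
    nlinarith [sq_nonneg (g 0 * v 1 - g 1 * v 0), sq_nonneg (g 0 * v 2 - g 2 * v 0),
      sq_nonneg (g 1 * v 2 - g 2 * v 1)]
  obtain ⟨a0, a1, a2, b0, b1, b2, ha, hb, hab, hag, hbg⟩ := exists_orth (g 0) (g 1) (g 2) hG2pos
  set a : E3 := !₂[a0, a1, a2] with hadef
  set b : E3 := !₂[b0, b1, b2] with hbdef
  have ea0 : a 0 = a0 := rfl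
  have ea1 : a 1 = a1 := rfl
  have ea2 : a 2 = a2 := rfl
  have eb0 : b 0 = b0 := rfl
  have eb1 : b 1 = b1 := rfl
  have eb2 : b 2 = b2 := rfl
  set n0 := a1 * b2 - a2 * b1 with hn0
  set n1 := a2 * b0 - a0 * b2 with hn1
  set n2 := a0 * b1 - a1 * b0 with hn2
  have hnn : n0 ^ 2 + n1 ^ 2 + n2 ^ 2 = 1 := by
    have : n0 ^ 2 + n1 ^ 2 + n2 ^ 2 = (a0 ^ 2 + a1 ^ 2 + a2 ^ 2) * (b0 ^ 2 + b1 ^ 2 + b2 ^ 2)
      - (a0 * b0 + a1 * b1 + a2 * b2) ^ 2 := by rw [hn0, hn1, hn2]; ring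
    rw [this, ha, hb, hab]; norm_num
  set m := g 0 * n0 + g 1 * n1 + g 2 * n2 with hm
  -- `g × n = 0`
  have c01 : g 0 * n1 = g 1 * n0 := by
    rw [hn0, hn1]
    linear_combination a2 * hbg - b2 * hag
  have c02 : g 0 * n2 = g 2 * n0 := by
    rw [hn0, hn2]
    linear_combination - a1 * hbg + b1 * hag
  have c12 : g 1 * n2 = g 2 * n1 := by
    rw [hn1, hn2]
    linear_combination a0 * hbg - b0 * hag
  have g0e : g 0 = m * n0 := by
    rw [hm]; linear_combination - g 0 * hnn + n1 * c01 + n2 * c02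
  have g1e : g 1 = m * n1 := by
    rw [hm]; linear_combination - g 1 * hnn - n0 * c01 + n2 * c12
  have g2e : g 2 = m * n2 := by
    rw [hm]; linear_combination - g 2 * hnn - n0 * c02 - n1 * c12
  have hmG : m ^ 2 = G2 := by
    rw [hG2, g0e, g1e, g2e]
    linear_combination - m ^ 2 * hnn
  set p := D2 F x a a with hp
  set q := D2 F x a b with hq
  set r := D2 F x b b with hr
  have hq' : D2 F x b a = q := by
    rw [hq, hh, hh, Finset.sum_comm]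
    refine Finset.sum_congr rfl fun i _ => Finset.sum_congr rfl fun j _ => ?_
    rw [hsym j i]; ring
  have hdet : G2 * (p * r - q ^ 2) = bord g h := by
    have hid := bord_id (h 0 0) (h 0 1) (h 0 2) (h 1 1) (h 1 2) (h 2 2) a0 a1 a2 b0 b1 b2
    rw [hp, hq, hr, hh, hh, hh, sum_expand_diag h hsym, sum_expand_diag h hsym,
      sum_expand h hsym, ea0, ea1, ea2, eb0, eb1, eb2, hid, bord, g0e, g1e, g2e, ← hmG,
      ← hn0, ← hn1, ← hn2]
    generalize n0 = N0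
    generalize n1 = N1
    generalize n2 = N2
    ring
  have hpB : |p| ≤ 3 * B := by
    rw [hp, hh]; exact quad_bound h B hB0.le hhB a a ha ha
  have hqB : |q| ≤ 3 * B := by
    rw [hq, hh]; exact quad_bound h B hB0.le hhB a b ha hb
  have hrB : |r| ≤ 3 * B := by
    rw [hr, hh]; exact quad_bound h B hB0.le hhB b b hb hb
  set σ : ℝ := ((SignType.sign μ : SignType) : ℝ) with hσ
  have hσμ : μ = σ * |μ| := by rw [hσ, sign_mul_abs]
  have hσ2 : σ ^ 2 = 1 := by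
    rcases lt_or_gt_of_ne hμ0 with h | h
    · rw [hσ, sign_neg h]; norm_num
    · rw [hσ, sign_pos h]; norm_num
  have hσa : |σ| = 1 := by
    rw [← sq_eq_sq₀ (abs_nonneg _) (by norm_num), sq_abs, hσ2]; norm_num
  obtain ⟨s, t, hst, hquad⟩ := quad_pos (σ * p) (σ * q) (σ * r) (3 * B) (-bord g h / G2)
    (by
      rw [← hdet]
      field_simp
      linear_combination (p * r - q ^ 2) * hσ2) (by
      apply div_pos (by linarith) hG2pos) (by positivity)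
    (by rw [abs_mul, hσa, one_mul]; exact hpB)
    (by rw [abs_mul, hσa, one_mul]; exact hqB) (by rw [abs_mul, hσa, one_mul]; exact hrB)
  have hval : μ * D2 F x (s • a + t • b) (s • a + t • b)
      = |μ| * (σ * p * s ^ 2 + 2 * (σ * q) * (s * t) + σ * r * t ^ 2) := by
    have : D2 F x (s • a + t • b) (s • a + t • b)
        = p * s ^ 2 + 2 * q * (s * t) + r * t ^ 2 := by
      have e : D2 F x (s • a + t • b) (s • a + t • b)
          = s * s * D2 F x a a + s * t * D2 F x a b + (t * s * D2 F x b a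
            + t * t * D2 F x b b) := by
        simp only [D2, map_add, map_smul, add_apply, smul_apply, smul_eq_mul]
        ring
      rw [e, hq', ← hp, ← hq, ← hr]; ring
    rw [this]
    conv_lhs => rw [hσμ]
    ring
  have hμa : 0 < |μ| := abs_pos.2 hμ0
  have hkey : 0 < -bord g h / G2 := div_pos (by linarith) hG2pos
  refine ⟨s • a + t • b, ?_, ?_, ?_⟩
  · rw [hg, Fin.sum_univ_three]
    simp only [PiLp.add_apply, PiLp.smul_apply, smul_eq_mul, ea0, ea1, ea2, eb0, eb1, eb2]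
    linear_combination s * hag + t * hbg
  · rw [hval]
    apply mul_pos hμa
    exact lt_of_lt_of_le (by positivity) hquad
  · rw [hval]
    have hnu : ‖s • a + t • b‖ ^ 2 = s ^ 2 + t ^ 2 := by
      rw [normSq]
      simp only [PiLp.add_apply, PiLp.smul_apply, smul_eq_mul, ea0, ea1, ea2, eb0, eb1, eb2]
      linear_combination s ^ 2 * ha + t ^ 2 * hb + 2 * s * t * hab
    rw [hnu]
    have h12 : c * ϖ x * G ≤ -bord g h / G2 / (4 * (3 * B)) := by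
      rw [div_div, le_div_iff₀ (by positivity)]
      have hG3 : G * G2 ≤ 27 / 5 * B ^ 3 := by
        rw [← hGsq]
        have : G * G ^ 2 = G ^ 3 := by ring
        rw [this]
        calc G ^ 3 ≤ (7 / 4 * B) ^ 3 := pow_le_pow_left₀ hGpos.le hGB 3
          _ ≤ 27 / 5 * B ^ 3 := by
            have h1 : 0 < B ^ 3 := by positivity
            have h2 : (7 / 4 * B) ^ 3 = 343 / 64 * B ^ 3 := by ring
            rw [h2]
            linarith only [h1]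
      calc c * ϖ x * G * (G2 * (4 * (3 * B))) = c * ϖ x * (12 * B * (G * G2)) := by ring
        _ ≤ c * ϖ x * (12 * B * (27 / 5 * B ^ 3)) := by gcongr
        _ ≤ c * ϖ x * (100 * B ^ 4) := by
            apply mul_le_mul_of_nonneg_left _ hc0
            have h1 : 0 < B ^ 4 := by positivity
            have h2 : 12 * B * (27 / 5 * B ^ 3) = 324 / 5 * B ^ 4 := by ring
            rw [h2]
            linarith only [h1]
        _ ≤ -bord g h := by linarith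
    calc c * ϖ x * |μ| * ‖fderiv ℝ F x‖ * (s ^ 2 + t ^ 2)
        ≤ c * ϖ x * |μ| * G * (s ^ 2 + t ^ 2) := by gcongr
      _ = |μ| * (c * ϖ x * G * (s ^ 2 + t ^ 2)) := by ring
      _ ≤ |μ| * (-bord g h / G2 / (4 * (3 * B)) * (s ^ 2 + t ^ 2)) := by gcongr
      _ ≤ _ := by gcongr

end Pool.Agent.Tight.H27
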